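import Mathlib
import Pool.Agent.CAM.Fin

/-!
Almost everywhere convergence of multiple ergodic averages for pairwise commuting affine maps
of a compact abelian group, with linear exponents, any number of maps and no ergodicity
assumption.
-/

open MeasureTheory Filter Topology

namespace Pool.Agent.Results.MP_d464d9_an.AlgebraicActions

/-- `G` is a compact Hausdorff abelian group with Haar probability measure `μ`, the maps
`T i x = c i * α i x` (`α i` a continuous automorphism) commute pairwise, the `p i` are integer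
polynomials of degree at most one, and the `f i` are bounded Borel functions. -/
theorem result {G : Type*} [CommGroup G] [TopologicalSpace G] [IsTopologicalGroup G]
    [CompactSpace G] [T2Space G] [MeasurableSpace G] [BorelSpace G] (μ : Measure G)
    [μ.IsHaarMeasure] [μ.Regular] [IsProbabilityMeasure μ] {k : ℕ} (T : Fin k → Equiv.Perm G)
    (hT : ∀ i, ∃ (α : G ≃ₜ* G) (c : G), ∀ x, T i x = c * α x)
    (hcomm : ∀ i j, T i * T j = T j * T i) (p : Fin k → Polynomial ℤ)
    (hp : ∀ i, (p i).natDegree ≤ 1)
    (f : Fin k → G → ℂ) (hf : ∀ i, Measurable (f i)) (hb : ∀ i, ∃ C : ℝ, ∀ x, ‖f i x‖ ≤ C) :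
    ∀ᵐ x ∂μ, ∃ L : ℂ, Tendsto (fun N : ℕ => (1 / (N : ℂ)) * ∑ n ∈ Finset.Icc 1 N,
      ∏ i, f i ((T i ^ ((p i).eval (n : ℤ))) x)) atTop (𝓝 L) :=
  Pool.Agent.CAM.fin_main μ T hT hcomm p hp f hf hb

end Pool.Agent.Results.MP_d464d9_an.AlgebraicActions
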