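import Mathlib
import Pool.Agent.GAU.FinB

/-!
Almost everywhere convergence of multiple ergodic averages for Gaussian actions of `ℤ^k`.
-/

open MeasureTheory Filter Topology ProbabilityTheory
open scoped NNReal

namespace Pool.Agent.Results.MP_d464d9_an.GaussianActions

universe u

/-- `H` is a real vector space of measurable functions on `(Ω, μ)` each of which is a centred
Gaussian random variable (possibly `0`), and `H` is mapped to itself by composition with `T i` and
with the inverse of `T i`, up to equality almost everywhere.  (Gaussian actions are those for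
which such an `H` generates the σ-algebra modulo `μ`.) -/
def GaussSpace {Ω : Type u} [MeasurableSpace Ω] (μ : Measure Ω) {k : ℕ}
    (T : Fin k → Equiv.Perm Ω) (H : Submodule ℝ (Ω → ℝ)) : Prop :=
  (∀ ξ ∈ H, Measurable ξ ∧ ∃ v : ℝ≥0, μ.map ξ = gaussianReal 0 v) ∧
  (∀ i, ∀ ξ ∈ H, ∃ η ∈ H, (fun x => ξ (T i x)) =ᵐ[μ] η) ∧
  (∀ i, ∀ ξ ∈ H, ∃ η ∈ H, (fun x => ξ ((T i).symm x)) =ᵐ[μ] η)

/-- `e : ℕ → ℤ^k` is good for the pointwise ergodic theorem with a single function: for every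
measure preserving action `A` of `ℤ^k` on a probability space and every bounded measurable `F`
the averages `(1/N) ∑_{n=1}^N F (A (e n) z)` converge almost everywhere. -/
def IsGood {k : ℕ} (e : ℕ → Fin k → ℤ) : Prop :=
  ∀ (Z : Type u) [MeasurableSpace Z] (ν : Measure Z) [IsProbabilityMeasure ν]
    (A : (Fin k → ℤ) → Z → Z), (∀ z, A 0 z = z) → (∀ v w z, A (v + w) z = A v (A w z)) →
    (∀ v, MeasurePreserving (A v) ν ν) → ∀ F : Z → ℂ, Measurable F → (∃ C : ℝ, ∀ z, ‖F z‖ ≤ C) →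
    ∀ᵐ z ∂ν, ∃ L : ℂ, Tendsto (fun N : ℕ => (1 / (N : ℂ)) * ∑ n ∈ Finset.Icc 1 N, F (A (e n) z))
      atTop (𝓝 L)

/-- `T i` are pairwise commuting invertible measure preserving maps of a probability space
`(Ω, μ)`, `H` is an invariant space of centred Gaussian variables, and each `f i` is bounded and
measurable with respect to the σ-algebra generated by `H` (both modulo null sets).
(1) If `e : ℕ → ℤ^k` is good for a single function, then the averages of
`∏ i, f i ((T i)^{e n i} x)` converge almost everywhere.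
(2) If `p i` are integer polynomials of degree at most one, then the averages of
`∏ i, f i ((T i)^{p i (n)} x)` converge almost everywhere. -/
theorem result {Ω : Type u} [MeasurableSpace Ω] (μ : Measure Ω) [IsProbabilityMeasure μ] {k : ℕ}
    (T : Fin k → Equiv.Perm Ω) (hT : ∀ i, MeasurePreserving (T i) μ μ)
    (hT' : ∀ i, Measurable (T i).symm) (hcomm : ∀ i j, T i * T j = T j * T i)
    (H : Submodule ℝ (Ω → ℝ)) (hH : GaussSpace μ T H) (f : Fin k → Ω → ℂ)
    (hf : ∀ i, ∃ F : (H → ℝ) → ℂ, Measurable F ∧ f i =ᵐ[μ] fun x => F (fun ξ => ξ.1 x))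
    (hb : ∀ i, ∃ C : ℝ, ∀ᵐ x ∂μ, ‖f i x‖ ≤ C) :
    (∀ e : ℕ → Fin k → ℤ, IsGood.{u} e →
      ∀ᵐ x ∂μ, ∃ L : ℂ, Tendsto (fun N : ℕ => (1 / (N : ℂ)) * ∑ n ∈ Finset.Icc 1 N,
        ∏ i, f i ((T i ^ e n i) x)) atTop (𝓝 L)) ∧
    (∀ p : Fin k → Polynomial ℤ, (∀ i, (p i).natDegree ≤ 1) →
      ∀ᵐ x ∂μ, ∃ L : ℂ, Tendsto (fun N : ℕ => (1 / (N : ℂ)) * ∑ n ∈ Finset.Icc 1 N,
        ∏ i, f i ((T i ^ (p i).eval (n : ℤ)) x)) atTop (𝓝 L)) := by
  obtain ⟨h1, h2, h3⟩ := hH
  refine ⟨fun e he => ?_, fun p hp => ?_⟩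
  · exact Pool.Agent.GAU.fin_main μ T hT hT' hcomm H h1 h2 h3 e he f hf hb
  · exact Pool.Agent.GAU.fin_main μ T hT hT' hcomm H h1 h2 h3 _
      (Pool.Agent.GAU.lin_good p hp) f hf hb

end Pool.Agent.Results.MP_d464d9_an.GaussianActions
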