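import Mathlib
import Pool.Agent.EXT.ExF

/-!
Almost everywhere behaviour of multiple ergodic averages for skew products
`T i (y, x) = (S i y, c i y * α i x)` over arbitrary measure preserving base maps, with
commuting automorphisms of a compact abelian group in the fibre.
-/

open MeasureTheory Filter Topology

namespace Pool.Agent.Results.MP_d464d9_an.SkewProducts

universe u v

/-- The automorphism `α i0` is independent in the family: no non-trivial character `χ` of `G`
satisfies `χ ∘ (α i0)^h = χ` or `χ ∘ (α i0)^h = χ ∘ (α j)^h` for some `h ≥ 1` and `j ≠ i0`. -/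
def Indep {G : Type*} [CommGroup G] [TopologicalSpace G] {k : ℕ} (α : Fin k → (G ≃ₜ* G))
    (i0 : Fin k) : Prop :=
  ∀ χ : G →ₜ* Circle, χ ≠ 1 → ∀ h : ℕ, 1 ≤ h → (∃ x, χ ((α i0)^[h] x) ≠ χ x) ∧
    ∀ j, j ≠ i0 → ∃ x, χ ((α i0)^[h] x) ≠ χ ((α j)^[h] x)

/-- `(Y, ν)` is a probability space with arbitrary measure preserving maps `S i` (they need not
commute), `G` a compact second countable abelian group with pairwise commuting automorphisms
`α i`, the `c i : Y → G` are measurable, `T i (y, x) = (S i y, c i y * α i x)` and the `f i` are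
bounded and measurable.  (1) If `α i0` is independent, then `f i0` may be replaced by its fibre
average `y ↦ ∫ f i0 (y, x) dx`, up to an error tending to zero almost everywhere.
(2) If every `α i0` is independent, then almost everywhere the averages on `Y × G` differ from
those of the fibre averages on `Y` by a sequence tending to zero.
(3) If every `α i0` is independent, `Y` is a compact abelian group and the `S i` are pairwise
commuting affine maps, then the averages converge almost everywhere. -/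
theorem result :
    (∀ (Y : Type u) (G : Type v) [MeasurableSpace Y] (ν : Measure Y) [IsProbabilityMeasure ν]
      [CommGroup G] [TopologicalSpace G] [IsTopologicalGroup G] [CompactSpace G] [T2Space G]
      [SecondCountableTopology G] [MeasurableSpace G] [BorelSpace G] (μ : Measure G)
      [μ.IsHaarMeasure] [IsProbabilityMeasure μ] (k : ℕ) (S : Fin k → Y → Y)
      (α : Fin k → (G ≃ₜ* G)) (c : Fin k → Y → G) (T : Fin k → Y × G → Y × G)
      (f : Fin k → Y × G → ℂ), (∀ i, MeasurePreserving (S i) ν ν) → (∀ i, Measurable (c i)) →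
      (∀ i z, T i z = (S i z.1, c i z.1 * α i z.2)) → (∀ i j x, α i (α j x) = α j (α i x)) →
      (∀ i, Measurable (f i)) → (∀ i, ∃ C : ℝ, ∀ z, ‖f i z‖ ≤ C) →
      (∀ i0, Indep α i0 → ∀ᵐ z ∂(ν.prod μ), Tendsto (fun N : ℕ => (1 / (N : ℂ)) *
        ∑ n ∈ Finset.Icc 1 N, (∏ i, f i ((T i)^[n] z) - (∫ x, f i0 ((S i0)^[n] z.1, x) ∂μ) *
          ∏ i ∈ Finset.univ.erase i0, f i ((T i)^[n] z))) atTop (𝓝 0)) ∧
      ((∀ i0, Indep α i0) → ∀ᵐ z ∂(ν.prod μ), Tendsto (fun N : ℕ => (1 / (N : ℂ)) *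
        ∑ n ∈ Finset.Icc 1 N, (∏ i, f i ((T i)^[n] z) - ∏ i, ∫ x, f i ((S i)^[n] z.1, x) ∂μ))
          atTop (𝓝 0))) ∧
    (∀ (K : Type u) (G : Type v) [CommGroup K] [TopologicalSpace K] [IsTopologicalGroup K]
      [CompactSpace K] [T2Space K] [MeasurableSpace K] [BorelSpace K] (ν : Measure K)
      [ν.IsHaarMeasure] [ν.Regular] [IsProbabilityMeasure ν]
      [CommGroup G] [TopologicalSpace G] [IsTopologicalGroup G] [CompactSpace G] [T2Space G]
      [SecondCountableTopology G] [MeasurableSpace G] [BorelSpace G] (μ : Measure G)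
      [μ.IsHaarMeasure] [IsProbabilityMeasure μ] (k : ℕ) (S : Fin k → Equiv.Perm K)
      (α : Fin k → (G ≃ₜ* G)) (c : Fin k → K → G) (T : Fin k → K × G → K × G)
      (f : Fin k → K × G → ℂ), (∀ i, ∃ (β : K ≃ₜ* K) (b : K), ∀ y, S i y = b * β y) →
      (∀ i j, S i * S j = S j * S i) → (∀ i, Measurable (c i)) →
      (∀ i z, T i z = (S i z.1, c i z.1 * α i z.2)) → (∀ i j x, α i (α j x) = α j (α i x)) →
      (∀ i0, Indep α i0) → (∀ i, Measurable (f i)) → (∀ i, ∃ C : ℝ, ∀ z, ‖f i z‖ ≤ C) →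
      ∀ᵐ z ∂(ν.prod μ), ∃ L : ℂ, Tendsto (fun N : ℕ => (1 / (N : ℂ)) *
        ∑ n ∈ Finset.Icc 1 N, ∏ i, f i ((T i)^[n] z)) atTop (𝓝 L)) := by
  refine ⟨?_, ?_⟩
  · intro Y G _ ν _ _ _ _ _ _ _ _ _ μ _ _ k S α c T f hS hc hT hα hf hb
    exact ⟨fun i0 h0 => Pool.Agent.EXT.ext_one_icc ν μ S hS α c hc T hT hα f hf hb i0 h0,
      fun h0 => Pool.Agent.EXT.ext_all_icc ν μ S hS α c hc T hT hα f hf hb h0⟩
  · intro K G _ _ _ _ _ _ _ ν _ _ _ _ _ _ _ _ _ _ _ μ _ _ k S α c T f hS hcomm hc hT hα h0 hf hb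
    exact Pool.Agent.EXT.ext_alg ν μ S hS hcomm α c hc T hT hα h0 f hf hb

end Pool.Agent.Results.MP_d464d9_an.SkewProducts
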