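import Mathlib
import Pool.Agent.ZEN.Ca

/-!
The Pinsker factor of a measure preserving action of `ℤ^r` is characteristic for the almost
everywhere convergence of polynomial multiple ergodic averages of commuting transformations.
-/

open MeasureTheory Filter Topology Polynomial
open Pool.Agent.ZEN

namespace Pool.Agent.Results.MP_d464d9_an.ZeroEntropyReduction

universe u

/-- Non-degenerate patterns: the `v i` are non-zero, the `p i` are non-constant and
`n ↦ p_i(n) v_i - p_j(n) v_j` is non-constant for `i ≠ j`. -/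
def Nondeg {r k : ℕ} (v : Fin k → Zr r) (p : Fin k → ℤ[X]) : Prop :=
  (∀ i, v i ≠ 0) ∧ (∀ i, 1 ≤ (p i).natDegree) ∧
    ∀ i j, i ≠ j → ∃ s : ℕ, 1 ≤ s ∧ (p i).coeff s • v i ≠ (p j).coeff s • v j

/-- `A_N(x) = (1/N) ∑_{n=1}^N ∏_i f_i (T^{p_i(n) v_i + w_i} x)` -/
noncomputable def A {X : Type*} {r k : ℕ} (T : Zr r → X → X) (v w : Fin k → Zr r)
    (p : Fin k → ℤ[X]) (f : Fin k → X → ℝ) (N : ℕ) (x : X) : ℝ :=
  (1 / (N : ℝ)) * ∑ n ∈ Finset.Icc 1 N, ∏ i, f i (T ((p i).eval (n : ℤ) • v i + w i) x)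

/-- `A_N(x) = (1/N) ∑_{n=1}^N ∏_i f_i (S_i^{p_i(n)} x)` for permutations `S i` -/
noncomputable def B {X : Type*} {k : ℕ} (S : Fin k → Equiv.Perm X)
    (p : Fin k → ℤ[X]) (f : Fin k → X → ℝ) (N : ℕ) (x : X) : ℝ :=
  (1 / (N : ℝ)) * ∑ n ∈ Finset.Icc 1 N, ∏ i, f i ((S i ^ ((p i).eval (n : ℤ))) x)

/-- The hypotheses of the problem: pairwise commuting, invertible, measure preserving maps,
bounded measurable functions. -/
def Sys {X : Type*} [MeasurableSpace X] (μ : Measure X) {k : ℕ} (S : Fin k → Equiv.Perm X)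
    (f : Fin k → X → ℝ) : Prop :=
  (∀ i, Measurable (⇑(S i))) ∧ (∀ i, Measurable (⇑(S i).symm)) ∧
    (∀ i, MeasurePreserving (⇑(S i)) μ μ) ∧ (∀ i j, S i * S j = S j * S i) ∧
    (∀ i, Measurable (f i)) ∧ (∀ i, ∃ C : ℝ, ∀ x, |f i x| ≤ C)

/-- (1) the σ-algebra `Pin` generated by the sets of zero entropy is pointwise characteristic;
(2) for every non-degenerate pattern, almost everywhere convergence for all `ℤ^r`-actions follows
from almost everywhere convergence for all `ℤ^r`-actions with zero entropy;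
(3) if all sets of zero entropy have measure `0` or `1`, the limit is the product of the
integrals; (4) statement (1) for the averages of the problem (functions with a constant
polynomial are left unchanged); (5) the almost everywhere part of the problem follows from its
special case of zero entropy actions. -/
theorem result :
    (∀ (X : Type u) [MeasurableSpace X] (μ : Measure X) [IsProbabilityMeasure μ] (r k : ℕ)
      (T : Zr r → X → X) (v w : Fin k → Zr r) (p : Fin k → ℤ[X]) (f : Fin k → X → ℝ),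
      IsAct μ T → Nondeg v p → (∀ i, Measurable (f i)) → (∀ i, ∃ C : ℝ, ∀ x, |f i x| ≤ C) →
      ∀ᵐ x ∂μ, Tendsto (fun N => A T v w p f N x - A T v w p (fun i => μ[f i|Pin μ T]) N x)
        atTop (𝓝 0)) ∧
    (∀ (r k : ℕ) (v w : Fin k → Zr r) (p : Fin k → ℤ[X]), Nondeg v p →
      (∀ (X : Type u) [MeasurableSpace X] (μ : Measure X) [IsProbabilityMeasure μ]
        (T : Zr r → X → X) (f : Fin k → X → ℝ), IsAct μ T →
        (∀ E : Set X, MeasurableSet E → IsZE μ T E) → (∀ i, Measurable (f i)) →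
        (∀ i, ∃ C : ℝ, ∀ x, |f i x| ≤ C) →
        ∀ᵐ x ∂μ, ∃ L : ℝ, Tendsto (fun N => A T v w p f N x) atTop (𝓝 L)) →
      ∀ (X : Type u) [MeasurableSpace X] (μ : Measure X) [IsProbabilityMeasure μ]
        (T : Zr r → X → X) (f : Fin k → X → ℝ), IsAct μ T → (∀ i, Measurable (f i)) →
        (∀ i, ∃ C : ℝ, ∀ x, |f i x| ≤ C) →
        ∀ᵐ x ∂μ, ∃ L : ℝ, Tendsto (fun N => A T v w p f N x) atTop (𝓝 L)) ∧
    (∀ (X : Type u) [MeasurableSpace X] (μ : Measure X) [IsProbabilityMeasure μ] (r k : ℕ)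
      (T : Zr r → X → X) (v w : Fin k → Zr r) (p : Fin k → ℤ[X]) (f : Fin k → X → ℝ),
      IsAct μ T → (∀ E : Set X, IsZE μ T E → μ E = 0 ∨ μ E = 1) → Nondeg v p →
      (∀ i, Measurable (f i)) → (∀ i, ∃ C : ℝ, ∀ x, |f i x| ≤ C) →
      ∀ᵐ x ∂μ, Tendsto (fun N => A T v w p f N x) atTop (𝓝 (∏ i, ∫ y, f i y ∂μ))) ∧
    (∀ (X : Type u) [MeasurableSpace X] (μ : Measure X) [IsProbabilityMeasure μ] (k : ℕ)
      (S : Fin k → Equiv.Perm X) (p : Fin k → ℤ[X]) (f g : Fin k → X → ℝ), Sys μ S f →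
      (∀ i, 1 ≤ (p i).natDegree → g i = μ[f i|Pin μ (act S)]) →
      (∀ i, ¬ 1 ≤ (p i).natDegree → g i = f i) →
      ∀ᵐ x ∂μ, Tendsto (fun N => B S p f N x - B S p g N x) atTop (𝓝 0)) ∧
    ((∀ (X : Type u) [MeasurableSpace X] (μ : Measure X) [IsProbabilityMeasure μ] (k : ℕ)
      (S : Fin k → Equiv.Perm X) (p : Fin k → ℤ[X]) (f : Fin k → X → ℝ), Sys μ S f →
      (∀ E : Set X, MeasurableSet E → IsZE μ (act S) E) →
      ∀ᵐ x ∂μ, ∃ L : ℝ, Tendsto (fun N => B S p f N x) atTop (𝓝 L)) →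
    ∀ (X : Type u) [MeasurableSpace X] (μ : Measure X) [IsProbabilityMeasure μ] (k : ℕ)
      (S : Fin k → Equiv.Perm X) (p : Fin k → ℤ[X]) (f : Fin k → X → ℝ), Sys μ S f →
      ∀ᵐ x ∂μ, ∃ L : ℝ, Tendsto (fun N => B S p f N x) atTop (𝓝 L)) := by
  refine ⟨?_, ?_, ?_, ?_, ?_⟩
  · intro X _ μ _ r k T v w p f hT hn hf hb
    filter_upwards [main_poly μ T hT v w p hn.1 hn.2.1 hn.2.2 f hf hb] with x hx
    refine hx.congr fun N => ?_
    simp only [A]
    rw [← mul_sub, ← Finset.sum_sub_distrib]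
  · intro r k v w p hn H X _ μ _ T f hT hf hb
    exact reduce v w p hn.1 hn.2.1 hn.2.2
      (fun X _ μ _ T hT hz f hf hb => H X μ T f hT hz hf hb) X μ T hT f hf hb
  · intro X _ μ _ r k T v w p f hT hK hn hf hb
    exact cpe μ T hT hK v w p hn.1 hn.2.1 hn.2.2 f hf hb
  · intro X _ μ _ k S p f g hS hg hg0
    filter_upwards [comm_main μ S hS.2.1 hS.2.2.1 hS.2.2.2.1 p f g hS.2.2.2.2.1 hS.2.2.2.2.2
      hg hg0] with x hx
    refine hx.congr fun N => ?_
    simp only [B]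
    rw [← mul_sub, ← Finset.sum_sub_distrib]
  · intro H X _ μ _ k S p f hS
    exact comm_reduce (fun X _ μ _ k S p f h1 h2 h3 h4 h5 h6 hz =>
      H X μ k S p f ⟨h1, h2, h3, h4, h5, h6⟩ hz) X μ k S p f hS.2.1 hS.2.2.1 hS.2.2.2.1
      hS.2.2.2.2.1 hS.2.2.2.2.2

end Pool.Agent.Results.MP_d464d9_an.ZeroEntropyReduction
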